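import Mathlib
import Pool.Agent.H968Z.Klein.Defs
import Pool.Agent.H968Z.Klein.Cover

set_option autoImplicit false

namespace Pool.Agent.Results.MP_ffafe4_gt.AKleinBottle

open Pool.Agent.H968Z.Klein

/-- There are a connected finite CW complex `X`, a based covering `q : X' → X` of finite degree
`d > 1` and a based homeomorphism `h : X → X'` such that `G = ⋂ im (q h)_#^k` is a finitely
presented normal subgroup of `π₁(X)` and no `K(π₁(X)/G, 1)` is finitely dominated. -/
theorem result :
    ∃ (X : Type) (_ : TopologicalSpace X) (x₀ : X) (X' : Type) (_ : TopologicalSpace X') (x₀' : X')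
      (q : C(X', X)) (h : X ≃ₜ X') (d : ℕ) (hb : (q.comp ⟨h, h.continuous⟩) x₀ = x₀),
      IsFiniteCW X ∧ PathConnectedSpace X ∧ IsCoveringMap q ∧ 1 < d ∧
      (∀ x, Nat.card (q ⁻¹' {x}) = d) ∧ h x₀ = x₀' ∧ q x₀' = x₀ ∧
      ∃ _ : (stableImage (FundamentalGroup.mapOfEq (q.comp ⟨h, h.continuous⟩) hb)).Normal,
        Group.IsFinitelyPresented
          (stableImage (FundamentalGroup.mapOfEq (q.comp ⟨h, h.continuous⟩) hb)) ∧
        ∀ (Y : Type) [TopologicalSpace Y] (y : Y),
          IsKPiOne (FundamentalGroup X x₀ ⧸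
            stableImage (FundamentalGroup.mapOfEq (q.comp ⟨h, h.continuous⟩) hb)) Y y →
          ¬ FinitelyDominated Y :=
  ⟨KB, inferInstance, pr e0, KB, inferInstance, pr e0, qq, Homeomorph.refl _, 3, qq_base,
    isFiniteCW_KB, inferInstance, qq_cover, by norm_num, qq_card, rfl, qq_base, stable_normal,
    stable_fp, no_dom⟩

end Pool.Agent.Results.MP_ffafe4_gt.AKleinBottle
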